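import Mathlib

/-! Definitions and exact statements of the parts for MP_4f027a_co. -/

namespace Pool.Agent.X189.BS

open Equiv

/-- The simple transposition of the rows `i`, `i+1`. -/
def sg {n : ℕ} (i : Fin n) : Perm (Fin (n + 1)) := swap i.castSucc i.succ

/-- Right multiplication by `1 + T_i`, in coordinates with respect to the basis `T_w`. -/
def hstep {n : ℕ} (q : ℤ) (f : Perm (Fin (n + 1)) → ℤ) (i : Fin n) : Perm (Fin (n + 1)) → ℤ :=
  fun w => if w i.castSucc < w i.succ then f w + q * f (w * sg i) else q * f w + f (w * sg i)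

/-- `coef q R w` is the coefficient `c_{R,w}(q)`. -/
def coef {n : ℕ} (q : ℤ) (R : List (Fin n)) : Perm (Fin (n + 1)) → ℤ :=
  R.foldl (hstep q) (fun w => if w = 1 then 1 else 0)

def wprod {n : ℕ} (R : List (Fin n)) : Perm (Fin (n + 1)) := (R.map sg).prod

/-- number of inversions -/
def inv {n : ℕ} (w : Perm (Fin (n + 1))) : ℕ :=
  (Finset.univ.filter fun p : Fin (n + 1) × Fin (n + 1) => p.1 < p.2 ∧ w p.2 < w p.1).card

def Reduced {n : ℕ} (R : List (Fin n)) : Prop := inv (wprod R) = R.length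

/-- one commutation move -/
def CommMove {n : ℕ} (R R' : List (Fin n)) : Prop :=
  ∃ (A B : List (Fin n)) (i j : Fin n), i.val + 1 < j.val ∧
    ((R = A ++ i :: j :: B ∧ R' = A ++ j :: i :: B) ∨
      (R = A ++ j :: i :: B ∧ R' = A ++ i :: j :: B))

def SameClass {n : ℕ} : List (Fin n) → List (Fin n) → Prop := Relation.ReflTransGen CommMove

/-- sequence of pairs of wires (labels) that cross, from the state `u` -/
def labs {n : ℕ} : Perm (Fin (n + 1)) → List (Fin n) → List (Fin (n + 1) × Fin (n + 1))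
  | _, [] => []
  | u, i :: R => (u i.castSucc, u i.succ) :: labs (u * sg i) R

def Asc {n : ℕ} : Perm (Fin (n + 1)) → List (Fin n) → Prop
  | _, [] => True
  | u, i :: R => u i.castSucc < u i.succ ∧ Asc (u * sg i) R

def cstep {n : ℕ} (q : ℤ) (f : Perm (Fin (n + 1)) → ℤ) (e : Fin (n + 1) × Fin (n + 1)) :
    Perm (Fin (n + 1)) → ℤ :=
  fun g => if g.symm e.2 < g.symm e.1 then f (swap e.1 e.2 * g) + q * f g
    else q * f (swap e.1 e.2 * g) + f g

def C {n : ℕ} (q : ℤ) (L : List (Fin (n + 1) × Fin (n + 1))) : Perm (Fin (n + 1)) → ℤ :=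
  L.foldl (cstep q) (fun g => if g = 1 then 1 else 0)

def vstep {n : ℕ} (q : ℤ) (X : Fin (n + 1) → ℤ) (e : Fin (n + 1) × Fin (n + 1)) :
    Fin (n + 1) → ℤ :=
  fun z => if z = e.1 ∨ z = e.2 then X e.1 + q * X e.2 else (1 + q) * X z

/-- crossings of wires in the interval `[a, c]` -/
def res {n : ℕ} (a c : Fin (n + 1)) (L : List (Fin (n + 1) × Fin (n + 1))) :
    List (Fin (n + 1) × Fin (n + 1)) := L.filter fun e => a ≤ e.1 ∧ e.2 ≤ c

/-- `L` is a valid sequence of crossings of wires in `[a, c]`: at each crossing the two wires are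
adjacent and in the original order. -/
def Val {n : ℕ} (a c : Fin (n + 1)) (L : List (Fin (n + 1) × Fin (n + 1))) : Prop :=
  ∀ P e S, L = P ++ e :: S → a ≤ e.1 ∧ e.1 < e.2 ∧ e.2 ≤ c ∧ e ∉ P ∧
    (∀ z, e.2 < z → z ≤ c → ((e.2, z) ∈ P ↔ (e.1, z) ∈ P)) ∧
    (∀ z, a ≤ z → z < e.1 → ((z, e.1) ∈ P ↔ (z, e.2) ∈ P)) ∧
    (∀ z, e.1 < z → z < e.2 → ((e.1, z) ∈ P ↔ (z, e.2) ∉ P))

def loc {n : ℕ} (x : Fin (n + 1)) (L : List (Fin (n + 1) × Fin (n + 1))) :
    List (Fin (n + 1) × Fin (n + 1)) := L.filter fun e => e.1 = x ∨ e.2 = x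

/-- same order of crossings on every wire -/
def Eqv {n : ℕ} (L L' : List (Fin (n + 1) × Fin (n + 1))) : Prop := ∀ x, loc x L = loc x L'

/-- A: reduced words go up at each step (needs: inv (w * sg i) = inv w + 1 iff w i < w (i+1)). -/
def S_A : Prop := ∀ (n : ℕ) (R : List (Fin n)), Reduced R → Asc 1 R

/-- B -/
def S_B : Prop := ∀ (n : ℕ) (q : ℤ) (R : List (Fin n)) (g : Perm (Fin (n + 1))),
  coef q R (g⁻¹ * wprod R) = C q (labs 1 R) g

/-- G: membership in `labs` is inversion of the final state; validity of all restrictions. -/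
def S_G : Prop := ∀ (n : ℕ) (R : List (Fin n)), Asc 1 R →
  (∀ x y, (x, y) ∈ labs 1 R ↔ x < y ∧ (wprod R).symm y < (wprod R).symm x) ∧
  ∀ a c, Val a c (res a c (labs 1 R))

/-- K: restriction of the coefficients to an interval of wires. Proof: remove the largest label
(then the smallest) one at a time; if `c` is the largest label, `C q L g ≠ 0` implies
`g c = c` or `(g c, c) ∈ L`. -/
def S_K : Prop := ∀ (n : ℕ) (q : ℤ) (L : List (Fin (n + 1) × Fin (n + 1))) (a c : Fin (n + 1)),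
  (∀ a c, Val a c (res a c L)) → (∀ e ∈ L, e.1 < e.2) →
  ∀ g : Perm (Fin (n + 1)), (∀ z, z < a ∨ c < z → g z = z) → C q L g = C q (res a c L) g

/-- D: the vector of the wire `a` is determined by the coefficients.  Proof: it is
`z ↦ ∑ g (fixing everything outside [a,c], g a = z), q ^ #{(s,t) : a < s < t ≤ c, the wire g t is
above the wire g s} * C q L g`. -/
def S_D : Prop := ∀ (n : ℕ) (q : ℤ) (a c : Fin (n + 1))
  (L L' : List (Fin (n + 1) × Fin (n + 1))), Val a c L → Val a c L' → (∀ e, e ∈ L ↔ e ∈ L') →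
  (∀ g : Perm (Fin (n + 1)), (∀ z, z < a ∨ c < z → g z = z) → C q L g = C q L' g) →
  ∀ z, L.foldl (vstep q) (Pi.single a 1) z = L'.foldl (vstep q) (Pi.single a 1) z

/-- E1: flipping one triangle `a, b, c` changes the value at `c`. -/
def S_E1 : Prop := ∀ (n : ℕ) (q : ℤ) (a b c : Fin (n + 1))
  (P S : List (Fin (n + 1) × Fin (n + 1))), 0 < q → a < b → b < c →
  Val a c (P ++ (a, b) :: (a, c) :: (b, c) :: S) →
  (P ++ (a, b) :: (a, c) :: (b, c) :: S).foldl (vstep q) (Pi.single a 1) c <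
    (P ++ (b, c) :: (a, c) :: (a, b) :: S).foldl (vstep q) (Pi.single a 1) c

/-- E2: the order of the crossings is determined, up to commutations. -/
def S_E2 : Prop := ∀ (n : ℕ) (q : ℤ) (a c : Fin (n + 1))
  (L L' : List (Fin (n + 1) × Fin (n + 1))), 0 < q → a < c → Val a c L → Val a c L' →
  (∀ e, e ∈ L ↔ e ∈ L') →
  Eqv (L.filter fun e => e.1 ≠ a) (L'.filter fun e => e.1 ≠ a) →
  Eqv (L.filter fun e => e.2 ≠ c) (L'.filter fun e => e.2 ≠ c) →
  L.foldl (vstep q) (Pi.single a 1) c = L'.foldl (vstep q) (Pi.single a 1) c → Eqv L L'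

/-- F: same order of crossings on every wire implies the same commutation class. -/
def S_F : Prop := ∀ (n : ℕ) (R R' : List (Fin n)), Asc 1 R → Asc 1 R' →
  Eqv (labs 1 R) (labs 1 R') → SameClass R R'

end Pool.Agent.X189.BS
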