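import Pool.Agent.X189.BS.E2b

namespace Pool.Agent.X189.BS

variable {n : ℕ}

theorem B_loc {L M : List (Fin (n + 1) × Fin (n + 1))} (h : ∀ x, loc x L = loc x M)
    (hm : ∀ e, e ∈ L ↔ e ∈ M) {e f : Fin (n + 1) × Fin (n + 1)} (x : Fin (n + 1))
    (ex : e.1 = x ∨ e.2 = x) (fx : f.1 = x ∨ f.2 = x) : B L e f ↔ B M e f := by
  refine B_of_eqv (fun _ => true) ?_ hm x ex fx rfl rfl
  intro y
  have := h y
  simpa using this

open Classical in
/-- wires that the wire `a` meets before `c` -/
noncomputable def KK (a c : Fin (n + 1)) (L : List (Fin (n + 1) × Fin (n + 1))) :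
    Finset (Fin (n + 1)) := Finset.univ.filter fun b => B L (a, b) (a, c)

theorem main_ind (hE1 : S_E1) (q : ℤ) (hq : 0 < q) {a c : Fin (n + 1)}
    {M : List (Fin (n + 1) × Fin (n + 1))} :
    ∀ (k : ℕ) (L : List (Fin (n + 1) × Fin (n + 1))), (KK a c L).card ≤ k → Agr a c L M →
      (a, c) ∈ L → (∀ b, B M (a, b) (a, c) → B L (a, b) (a, c)) →
      L.foldl (vstep q) (Pi.single a 1) c ≤ M.foldl (vstep q) (Pi.single a 1) c ∧
      (L.foldl (vstep q) (Pi.single a 1) c = M.foldl (vstep q) (Pi.single a 1) c → Eqv L M) := by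
  intro k
  induction k with
  | zero =>
    intro L hk h hac hK
    have hK' : ∀ b, B L (a, b) (a, c) ↔ B M (a, b) (a, c) := by
      intro b
      refine ⟨fun h3 => ?_, hK b⟩
      exfalso
      have h4 : b ∈ KK a c L := by simp [KK, h3]
      have h5 : KK a c L = ∅ := Finset.card_eq_zero.1 (Nat.le_zero.1 hk)
      rw [h5] at h4
      simp at h4
    have h6 : Eqv L M := eqv_of_B h (ord_of_K h hK' hac)
    have h7 := (good_sw q a c (sw_of_loc L M h6 (VF_nodup L [] h.vL).1
      (VF_nodup M [] h.vM).1)).val (Pi.single a 1)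
    rw [h7]
    exact ⟨le_rfl, fun _ => h6⟩
  | succ k ih =>
    intro L hk h hac hK
    by_cases hK' : ∀ b, B L (a, b) (a, c) ↔ B M (a, b) (a, c)
    · have h6 : Eqv L M := eqv_of_B h (ord_of_K h hK' hac)
      have h7 := (good_sw q a c (sw_of_loc L M h6 (VF_nodup L [] h.vL).1
        (VF_nodup M [] h.vM).1)).val (Pi.single a 1)
      rw [h7]
      exact ⟨le_rfl, fun _ => h6⟩
    · have hex : ∃ b0, B L (a, b0) (a, c) ∧ ¬ B M (a, b0) (a, c) := by
        by_contra hn
        push Not at hn
        exact hK' (fun b => ⟨hn b, hK b⟩)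
      obtain ⟨b, Q, T, hab, hbc, hsw, hbM⟩ := flip_exists h hac hex
      have g := good_sw q a c hsw
      have v1 : VF a c [] (Q ++ (a, b) :: (a, c) :: (b, c) :: T) := g.vf h.vL
      have v2 := flip_VF hab hbc Q T v1
      have n1 := (VF_nodup _ [] v1).1
      have n2 := (VF_nodup _ [] v2).1
      have hlt := hE1 n q a b c Q T hq hab hbc ((val_iff a c _).2 v1)
      have hmem2 : ∀ e, e ∈ Q ++ (b, c) :: (a, c) :: (a, b) :: T ↔ e ∈ M := by
        intro e
        rw [← h.mem e, g.mem e]
        simp only [List.mem_append, List.mem_cons]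
        tauto
      have filt : ∀ (p : Fin (n + 1) × Fin (n + 1) → Bool), Eqv (L.filter p) (M.filter p) →
          Eqv ((Q ++ (a, b) :: (a, c) :: (b, c) :: T).filter p) (M.filter p) := by
        intro p hp x
        rw [← hp x]
        have := g.loc x
        simp only [loc, List.filter_filter] at this ⊢
        have h8 : ∀ l : List (Fin (n + 1) × Fin (n + 1)),
            List.filter (fun a => decide (a.1 = x ∨ a.2 = x) && p a) l =
            List.filter p (List.filter (fun a => decide (a.1 = x ∨ a.2 = x)) l) := by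
          intro l
          rw [List.filter_filter]
          congr 1
          funext y
          exact Bool.and_comm _ _
        rw [h8, h8, this]
      have hac' : a ≠ c := (hab.trans hbc).ne
      have A2 : Agr a c (Q ++ (b, c) :: (a, c) :: (a, b) :: T) M := by
        refine ⟨v2, h.vM, hmem2, ?_, ?_⟩
        · have h8 := filt _ h.h1
          have h9 : (Q ++ (b, c) :: (a, c) :: (a, b) :: T).filter (fun e => decide (e.1 ≠ a)) =
              (Q ++ (a, b) :: (a, c) :: (b, c) :: T).filter (fun e => decide (e.1 ≠ a)) := by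
            simp [List.filter_cons, hab.ne']
          rw [h9]
          exact h8
        · have h8 := filt _ h.h2
          have h9 : (Q ++ (b, c) :: (a, c) :: (a, b) :: T).filter (fun e => decide (e.2 ≠ c)) =
              (Q ++ (a, b) :: (a, c) :: (b, c) :: T).filter (fun e => decide (e.2 ≠ c)) := by
            simp [List.filter_cons, hbc.ne]
          rw [h9]
          exact h8
      have B1 : ∀ z, B L (a, z) (a, c) ↔ (a, z) ∈ Q ++ [(a, b)] := by
        intro z
        rw [B_loc g.loc g.mem a (Or.inl rfl) (Or.inl rfl)]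
        have h8 : Q ++ (a, b) :: (a, c) :: (b, c) :: T = (Q ++ [(a, b)]) ++ (a, c) :: (b, c) :: T := by
          simp
        rw [h8] at n1 ⊢
        exact B_iff n1
      have B2 : ∀ z, B (Q ++ (b, c) :: (a, c) :: (a, b) :: T) (a, z) (a, c) ↔ (a, z) ∈ Q := by
        intro z
        have h8 : Q ++ (b, c) :: (a, c) :: (a, b) :: T = (Q ++ [(b, c)]) ++ (a, c) :: (a, b) :: T := by
          simp
        rw [h8] at n2 ⊢
        rw [B_iff n2]
        simp [hab.ne]
      have habQ : (a, b) ∉ Q := by
        intro h8
        rw [List.nodup_append] at n1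
        exact n1.2.2 _ h8 (a, b) (by simp) rfl
      have hcard : (KK a c (Q ++ (b, c) :: (a, c) :: (a, b) :: T)).card ≤ k := by
        have h8 : (KK a c (Q ++ (b, c) :: (a, c) :: (a, b) :: T)).card < (KK a c L).card := by
          refine Finset.card_lt_card ?_
          rw [Finset.ssubset_iff_of_subset]
          · refine ⟨b, ?_, ?_⟩
            · simp [KK, B1]
            · simp only [KK, Finset.mem_filter, Finset.mem_univ, true_and, B2]
              exact habQ
          · intro z hz
            simp only [KK, Finset.mem_filter, Finset.mem_univ, true_and, B2, B1] at hz ⊢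
            simp [hz]
        omega
      have hK2 : ∀ z, B M (a, z) (a, c) →
          B (Q ++ (b, c) :: (a, c) :: (a, b) :: T) (a, z) (a, c) := by
        intro z hz
        rw [B2]
        have h8 := (B1 z).1 (hK z hz)
        simp only [List.mem_append, List.mem_singleton, Prod.mk.injEq, true_and] at h8
        rcases h8 with h9 | h9
        · exact h9
        · subst h9
          exact absurd hz hbM
      have := ih _ hcard A2 (by simp) hK2
      have h10 : L.foldl (vstep q) (Pi.single a 1) c < M.foldl (vstep q) (Pi.single a 1) c := by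
        rw [g.val (Pi.single a 1)]
        exact lt_of_lt_of_le hlt this.1
      exact ⟨h10.le, fun h11 => absurd h11 h10.ne⟩

theorem t_E2 (hE1 : S_E1) : S_E2 := by
  intro n q a c L M hq hac vL vM hmem h1 h2 hv
  have vL' := (val_iff a c L).1 vL
  have vM' := (val_iff a c M).1 vM
  have h : Agr a c L M := ⟨vL', vM', hmem, h1, h2⟩
  by_cases hin : (a, c) ∈ L
  · have hinM := (hmem _).1 hin
    by_cases hK : ∀ b, B M (a, b) (a, c) → B L (a, b) (a, c)
    · exact (main_ind hE1 q hq _ L le_rfl h hin hK).2 hv
    · have hK2 : ∀ b, B L (a, b) (a, c) → B M (a, b) (a, c) := by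
        push Not at hK
        obtain ⟨b2, hb2, hb2'⟩ := hK
        intro b1 hb1
        by_contra hn
        have hb1L : (a, b1) ∈ L := hb1.1
        have hb1M := (hmem _).1 hb1L
        have hb2M : (a, b2) ∈ M := hb2.1
        have hb2L := (hmem _).2 hb2M
        have c1 : b1 ≠ c := fun h3 => B_ne hb1 (by rw [h3])
        have c2 : b2 ≠ c := fun h3 => B_ne hb2 (by rw [h3])
        have k1 : B L (a, c) (a, b2) := by
          rcases B_total hin hb2L (by simp; exact fun h => c2 h.symm) with h3 | h3
          · exact h3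
          · exact absurd h3 hb2'
        have k2 : B M (a, c) (a, b1) := by
          rcases B_total hinM hb1M (by simp; exact fun h => c1 h.symm) with h3 | h3
          · exact h3
          · exact absurd h3 hn
        have k3 : B L (a, b1) (a, b2) := B_trans hb1 k1
        have k4 : B M (a, b2) (a, b1) := B_trans hb2 k2
        exact B_asymm ((h.o2 a (Or.inl rfl) (Or.inl rfl) c1 c2).1 k3) k4
      have h3 := (main_ind hE1 q hq _ M le_rfl h.symm hinM hK2).2 hv.symm
      exact fun x => (h3 x).symm
  · exact eqv_of_B h (ord_of_no h hin)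

end Pool.Agent.X189.BS
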