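import Pool.Agent.X189.BS.Sw

namespace Pool.Agent.X189.BS

variable {n : ℕ}

/-- `e` comes before `f` in `L` -/
def B (L : List (Fin (n + 1) × Fin (n + 1))) (e f : Fin (n + 1) × Fin (n + 1)) : Prop :=
  e ∈ L ∧ L.idxOf e < L.idxOf f

theorem B_iff {A S : List (Fin (n + 1) × Fin (n + 1))} {e f : Fin (n + 1) × Fin (n + 1)}
    (h : (A ++ f :: S).Nodup) : B (A ++ f :: S) e f ↔ e ∈ A := by
  have hf : f ∉ A := by
    intro hf
    rw [List.nodup_append] at h
    exact h.2.2 f hf f (by simp) rfl
  have h1 : (A ++ f :: S).idxOf f = A.length := by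
    rw [List.idxOf_append_of_notMem hf]
    simp
  constructor
  · rintro ⟨h2, h3⟩
    rw [h1] at h3
    by_contra he
    rw [List.idxOf_append_of_notMem he] at h3
    omega
  · intro he
    refine ⟨by simp [he], ?_⟩
    rw [h1, List.idxOf_append_of_mem he]
    exact List.idxOf_lt_length_of_mem he

theorem idx_filter (p : Fin (n + 1) × Fin (n + 1) → Bool) (L : List (Fin (n + 1) × Fin (n + 1)))
    {e f : Fin (n + 1) × Fin (n + 1)} (he : e ∈ L) (pe : p e = true) (pf : p f = true) :
    (L.filter p).idxOf e < (L.filter p).idxOf f ↔ L.idxOf e < L.idxOf f := by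
  induction L with
  | nil => simp at he
  | cons x L ih =>
    by_cases hxe : x = e
    · subst hxe
      rw [List.filter_cons_of_pos pe]
      by_cases hxf : x = f
      · subst hxf
        simp
      · simp [List.idxOf_cons, hxf]
    · have he' : e ∈ L := by
        rcases List.mem_cons.1 he with h | h
        · exact absurd h.symm hxe
        · exact h
      by_cases hxf : x = f
      · subst hxf
        rw [List.filter_cons_of_pos pf]
        simp
      · by_cases px : p x = true
        · rw [List.filter_cons_of_pos px]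
          simp [List.idxOf_cons, hxf, hxe, ih he']
        · rw [List.filter_cons_of_neg px]
          simp [List.idxOf_cons, hxf, hxe, ih he']

theorem B_of_eqv {L M : List (Fin (n + 1) × Fin (n + 1))} (p : Fin (n + 1) × Fin (n + 1) → Bool)
    (h : Eqv (L.filter p) (M.filter p)) (hm : ∀ e, e ∈ L ↔ e ∈ M)
    {e f : Fin (n + 1) × Fin (n + 1)} (x : Fin (n + 1)) (ex : e.1 = x ∨ e.2 = x)
    (fx : f.1 = x ∨ f.2 = x) (pe : p e = true) (pf : p f = true) : B L e f ↔ B M e f := by
  unfold B
  rw [hm e]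
  constructor
  · rintro ⟨h1, h2⟩
    refine ⟨h1, ?_⟩
    have hL := (hm e).2 h1
    rw [← idx_filter p L hL pe pf] at h2
    rw [← idx_filter (fun e => decide (e.1 = x ∨ e.2 = x)) _ (by simp [hL, pe]) (by simp [ex])
      (by simp [fx])] at h2
    have hx := h x
    simp only [loc] at hx
    rw [hx] at h2
    rw [idx_filter (fun e => decide (e.1 = x ∨ e.2 = x)) _ (by simp [h1, pe]) (by simp [ex])
      (by simp [fx])] at h2
    rwa [idx_filter p M h1 pe pf] at h2
  · rintro ⟨h1, h2⟩
    refine ⟨h1, ?_⟩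
    have hL := (hm e).2 h1
    rw [← idx_filter p M h1 pe pf] at h2
    rw [← idx_filter (fun e => decide (e.1 = x ∨ e.2 = x)) _ (by simp [h1, pe]) (by simp [ex])
      (by simp [fx])] at h2
    have hx := h x
    simp only [loc] at hx
    rw [← hx] at h2
    rw [idx_filter (fun e => decide (e.1 = x ∨ e.2 = x)) _ (by simp [hL, pe]) (by simp [ex])
      (by simp [fx])] at h2
    rwa [idx_filter p L hL pe pf] at h2

/-- two lists without repetition with the same elements and the same order are equal -/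
theorem eq_of_order {l m : List (Fin (n + 1) × Fin (n + 1))} (hl : l.Nodup) (hm : m.Nodup)
    (h : ∀ e, e ∈ l ↔ e ∈ m)
    (ho : ∀ e f, e ∈ l → f ∈ l → l.idxOf e < l.idxOf f → m.idxOf e < m.idxOf f) : l = m := by
  have hp : l.Perm m := (List.perm_ext_iff_of_nodup hl hm).2 h
  have h1 : l.Pairwise (fun e f => m.idxOf e ≤ m.idxOf f) := by
    rw [List.pairwise_iff_getElem]
    intro i j hi hj hij
    have h2 : l.idxOf l[i] = i := hl.idxOf_getElem i hi
    have h3 : l.idxOf l[j] = j := hl.idxOf_getElem j hj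
    exact (ho _ _ (List.getElem_mem hi) (List.getElem_mem hj) (by rw [h2, h3]; exact hij)).le
  have h2 : m.Pairwise (fun e f => m.idxOf e ≤ m.idxOf f) := by
    rw [List.pairwise_iff_getElem]
    intro i j hi hj hij
    rw [hm.idxOf_getElem i hi, hm.idxOf_getElem j hj]
    exact hij.le
  refine List.Perm.eq_of_pairwise ?_ h1 h2 hp
  intro a b ha hb h3 h4
  have ha' := (h a).1 ha
  have : m.idxOf a = m.idxOf b := le_antisymm h3 h4
  exact (List.idxOf_inj ha').1 this

/-- validity in terms of the order -/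
theorem val_B {a c : Fin (n + 1)} {L : List (Fin (n + 1) × Fin (n + 1))} (h : VF a c [] L)
    {x y : Fin (n + 1)} (he : (x, y) ∈ L) :
    a ≤ x ∧ x < y ∧ y ≤ c ∧
    (∀ z, y < z → z ≤ c → (B L (y, z) (x, y) ↔ B L (x, z) (x, y))) ∧
    (∀ z, a ≤ z → z < x → (B L (z, x) (x, y) ↔ B L (z, y) (x, y))) ∧
    (∀ z, x < z → z < y → (B L (x, z) (x, y) ↔ ¬ B L (z, y) (x, y))) := by
  have hnd := (VF_nodup L [] h).1
  rw [VF_iff] at h
  obtain ⟨A, S, rfl⟩ := List.append_of_mem he
  obtain ⟨h1, h2, h3, h4, h5, h6, h7⟩ := h A (x, y) S rfl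
  simp only [List.nil_append] at h4 h5 h6 h7
  simp only [B_iff hnd]
  exact ⟨h1, h2, h3, h5, h6, h7⟩

theorem B_total {L : List (Fin (n + 1) × Fin (n + 1))} {e f : Fin (n + 1) × Fin (n + 1)}
    (he : e ∈ L) (hf : f ∈ L) (hef : e ≠ f) : B L e f ∨ B L f e := by
  have : L.idxOf e ≠ L.idxOf f := fun h => hef ((List.idxOf_inj he).1 h)
  rcases Nat.lt_or_gt_of_ne this with h | h
  · exact Or.inl ⟨he, h⟩
  · exact Or.inr ⟨hf, h⟩

theorem B_asymm {L : List (Fin (n + 1) × Fin (n + 1))} {e f : Fin (n + 1) × Fin (n + 1)}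
    (h : B L e f) : ¬ B L f e := fun h' => absurd (h.2.trans h'.2) (lt_irrefl _)

theorem B_trans {L : List (Fin (n + 1) × Fin (n + 1))} {e f g : Fin (n + 1) × Fin (n + 1)}
    (h : B L e f) (h' : B L f g) : B L e g := ⟨h.1, h.2.trans h'.2⟩

structure Agr (a c : Fin (n + 1)) (L M : List (Fin (n + 1) × Fin (n + 1))) : Prop where
  vL : VF a c [] L
  vM : VF a c [] M
  mem : ∀ e, e ∈ L ↔ e ∈ M
  h1 : Eqv (L.filter fun e => e.1 ≠ a) (M.filter fun e => e.1 ≠ a)
  h2 : Eqv (L.filter fun e => e.2 ≠ c) (M.filter fun e => e.2 ≠ c)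

theorem Agr.o1 {a c : Fin (n + 1)} {L M : List (Fin (n + 1) × Fin (n + 1))} (h : Agr a c L M)
    {e f : Fin (n + 1) × Fin (n + 1)} (x : Fin (n + 1)) (ex : e.1 = x ∨ e.2 = x)
    (fx : f.1 = x ∨ f.2 = x) (pe : e.1 ≠ a) (pf : f.1 ≠ a) : B L e f ↔ B M e f :=
  B_of_eqv (fun e => decide (e.1 ≠ a)) h.h1 h.mem x ex fx (by simpa using pe) (by simpa using pf)

theorem Agr.o2 {a c : Fin (n + 1)} {L M : List (Fin (n + 1) × Fin (n + 1))} (h : Agr a c L M)
    {e f : Fin (n + 1) × Fin (n + 1)} (x : Fin (n + 1)) (ex : e.1 = x ∨ e.2 = x)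
    (fx : f.1 = x ∨ f.2 = x) (pe : e.2 ≠ c) (pf : f.2 ≠ c) : B L e f ↔ B M e f :=
  B_of_eqv (fun e => decide (e.2 ≠ c)) h.h2 h.mem x ex fx (by simpa using pe) (by simpa using pf)

theorem Agr.symm {a c : Fin (n + 1)} {L M : List (Fin (n + 1) × Fin (n + 1))} (h : Agr a c L M) :
    Agr a c M L :=
  ⟨h.vM, h.vL, fun e => (h.mem e).symm, fun x => (h.h1 x).symm, fun x => (h.h2 x).symm⟩

theorem eqv_of_B {a c : Fin (n + 1)} {L M : List (Fin (n + 1) × Fin (n + 1))} (h : Agr a c L M)
    (ho : ∀ e f x, e ∈ L → f ∈ L → (e.1 = x ∨ e.2 = x) → (f.1 = x ∨ f.2 = x) → B L e f → B M e f) :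
    Eqv L M := by
  intro x
  have nL := (VF_nodup L [] h.vL).1
  have nM := (VF_nodup M [] h.vM).1
  unfold loc
  refine eq_of_order (nL.filter _) (nM.filter _) ?_ ?_
  · intro e
    rw [List.mem_filter, List.mem_filter, h.mem e]
  · intro e f he hf hlt
    obtain ⟨he1, he2⟩ := List.mem_filter.1 he
    obtain ⟨hf1, hf2⟩ := List.mem_filter.1 hf
    have hB : B L e f := ⟨he1, (idx_filter _ L he1 he2 hf2).1 hlt⟩
    have := ho e f x he1 hf1 (by simpa using he2) (by simpa using hf2) hB
    exact (idx_filter _ M this.1 he2 hf2).2 this.2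

theorem ord_of_K {a c : Fin (n + 1)} {L M : List (Fin (n + 1) × Fin (n + 1))} (h : Agr a c L M)
    (hK : ∀ b, B L (a, b) (a, c) ↔ B M (a, b) (a, c)) (hac : (a, c) ∈ L) (e f : Fin (n + 1) × Fin (n + 1))
    (x : Fin (n + 1)) (he : e ∈ L) (hf : f ∈ L) (ex : e.1 = x ∨ e.2 = x) (fx : f.1 = x ∨ f.2 = x)
    (hB : B L e f) : B M e f := by
  have hacM := (h.mem _).1 hac
  by_cases p1 : e.1 ≠ a ∧ f.1 ≠ a
  · exact (h.o1 x ex fx p1.1 p1.2).1 hB
  by_cases p2 : e.2 ≠ c ∧ f.2 ≠ c
  · exact (h.o2 x ex fx p2.1 p2.2).1 hB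
  obtain ⟨e1, e2⟩ := e
  obtain ⟨f1, f2⟩ := f
  obtain ⟨ve1, ve2, ve3, -⟩ := val_B h.vL he
  obtain ⟨vf1, vf2, vf3, -⟩ := val_B h.vL hf
  obtain ⟨vac1, vac2, vac3, -, -, tL⟩ := val_B h.vL hac
  obtain ⟨-, -, -, -, -, tM⟩ := val_B h.vM hacM
  have heM := (h.mem _).1 he
  have hfM := (h.mem _).1 hf
  simp only [ne_eq, not_and_or, not_not] at p1 p2 ex fx
  by_cases hea : e1 = a
  · subst hea
    by_cases hec : e2 = c
    · subst hec
      by_cases hfa : f1 = e1
      · subst hfa
        by_cases hfc : f2 = e2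
        · subst hfc; exact absurd hB (fun h => absurd h.2 (lt_irrefl _))
        · rcases B_total heM hfM (by simp; exact fun h => hfc h.symm) with h3 | h3
          · exact h3
          · exact absurd ((hK f2).2 h3) (B_asymm hB)
      · have hfc : f2 = e2 := by
          rcases ex with rfl | rfl
          · rcases fx with h3 | h3
            · exact absurd h3 hfa
            · exfalso; omega
          · rcases fx with h3 | h3
            · exfalso; omega
            · exact h3
        subst hfc
        have h4 : e1 < f1 := lt_of_le_of_ne vf1 (fun h => hfa h.symm)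
        have h5 := (tL f1 h4 vf2).2 (B_asymm hB)
        have h6 := (tM f1 h4 vf2).1 ((hK f1).1 h5)
        rcases B_total heM hfM (by simp; exact fun h => hfa h.symm) with h3 | h3
        · exact h3
        · exact absurd h3 h6
    · -- e = (a, e2), e2 ≠ c, f.2 = c
      have hfc : f2 = c := by
        rcases p2 with h3 | h3
        · exact absurd h3 hec
        · exact h3
      subst hfc
      by_cases hfa : f1 = e1
      · subst hfa
        exact (hK e2).1 hB
      · have h3 : f1 = e2 := by
          rcases ex with rfl | rfl <;> rcases fx with h3 | h3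
          · exact absurd h3 hfa
          · omega
          · exact h3
          · exact absurd h3.symm hec
        subst h3
        have h5 : B L (e1, f1) (e1, f2) := by
          by_contra hn
          have h6 : B L (f1, f2) (e1, f2) := by
            by_contra hn2
            exact hn ((tL f1 ve2 vf2).2 hn2)
          rcases B_total he hac (by simp; exact hec) with h7 | h7
          · exact hn h7
          · exact B_asymm hB (B_trans h6 h7)
        have h6 := (tM f1 ve2 vf2).1 ((hK f1).1 h5)
        rcases B_total hacM hfM (by simp; exact fun h => hfa h.symm) with h7 | h7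
        · exact B_trans ((hK f1).1 h5) h7
        · exact absurd h7 h6
  · -- f.1 = a
    have hfa : f1 = a := by
      rcases p1 with h3 | h3
      · exact absurd h3 hea
      · exact h3
    subst hfa
    have hlt : f1 < e1 := lt_of_le_of_ne ve1 (fun h => hea h.symm)
    by_cases hfc : f2 = c
    · subst hfc
      -- e touches a or c, so e.2 = c
      have hec : e2 = f2 := by
        rcases ex with rfl | rfl <;> rcases fx with h3 | h3
        · exact absurd h3.symm hea
        · omega
        · omega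
        · exact h3.symm
      subst hec
      have h5 : ¬ B L (f1, e1) (f1, e2) := fun hn => (tL e1 hlt ve2).1 hn hB
      by_contra hn2
      exact h5 ((hK e1).2 ((tM e1 hlt ve2).2 hn2))
    · have hec : e2 = c := by
        rcases p2 with h3 | h3
        · exact h3
        · exact absurd h3 hfc
      subst hec
      have h3 : e1 = f2 := by
        rcases ex with rfl | rfl <;> rcases fx with h3 | h3
        · exact absurd h3.symm hea
        · exact h3.symm
        · omega
        · exact absurd h3 hfc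
      subst h3
      have h5 : ¬ B L (f1, e1) (f1, e2) := by
        intro hn
        have h6 := (tL e1 hlt ve2).1 hn
        rcases B_total hac he (by simp; exact fun h => hea h.symm) with h7 | h7
        · exact B_asymm hB (B_trans hn h7)
        · exact h6 h7
      have h6 : B M (e1, e2) (f1, e2) := by
        by_contra hn2
        exact h5 ((hK e1).2 ((tM e1 hlt ve2).2 hn2))
      rcases B_total hacM hfM (by simp; exact fun h => hfc h.symm) with h7 | h7
      · exact B_trans h6 h7
      · exact absurd ((hK e1).2 h7) h5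

theorem ac_mem {a c : Fin (n + 1)} {L : List (Fin (n + 1) × Fin (n + 1))} (h : VF a c [] L)
    {b : Fin (n + 1)} (h1 : (a, b) ∈ L) (h2 : (b, c) ∈ L) : (a, c) ∈ L := by
  obtain ⟨p1, p2, p3, p4, -, -⟩ := val_B h h1
  obtain ⟨q1, q2, q3, -, q5, -⟩ := val_B h h2
  rcases B_total h1 h2 (by simp; intro h3; exact absurd h3 p2.ne) with h3 | h3
  · exact ((q5 a le_rfl p2).1 h3).1
  · exact ((p4 c q2 le_rfl).1 h3).1

theorem ord_of_no {a c : Fin (n + 1)} {L M : List (Fin (n + 1) × Fin (n + 1))} (h : Agr a c L M)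
    (hac : (a, c) ∉ L) (e f : Fin (n + 1) × Fin (n + 1))
    (x : Fin (n + 1)) (he : e ∈ L) (hf : f ∈ L) (ex : e.1 = x ∨ e.2 = x) (fx : f.1 = x ∨ f.2 = x)
    (hB : B L e f) : B M e f := by
  by_cases p1 : e.1 ≠ a ∧ f.1 ≠ a
  · exact (h.o1 x ex fx p1.1 p1.2).1 hB
  by_cases p2 : e.2 ≠ c ∧ f.2 ≠ c
  · exact (h.o2 x ex fx p2.1 p2.2).1 hB
  exfalso
  obtain ⟨e1, e2⟩ := e
  obtain ⟨f1, f2⟩ := f
  obtain ⟨ve1, ve2, ve3, -⟩ := val_B h.vL he
  obtain ⟨vf1, vf2, vf3, -⟩ := val_B h.vL hf
  simp only [ne_eq, not_and_or, not_not] at p1 p2 ex fx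
  rcases p1 with rfl | rfl
  · rcases p2 with rfl | rfl
    · exact hac he
    · have h3 : e2 = f1 := by
        rcases ex with rfl | rfl <;> rcases fx with h3 | h3
        · subst h3; exact absurd hf hac
        · omega
        · exact h3.symm
        · subst h3; exact absurd he hac
      subst h3
      exact hac (ac_mem h.vL he hf)
  · rcases p2 with rfl | rfl
    · have h3 : f2 = e1 := by
        rcases ex with rfl | rfl <;> rcases fx with h3 | h3
        · subst h3; exact absurd he hac
        · exact h3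
        · omega
        · subst h3; exact absurd hf hac
      subst h3
      exact hac (ac_mem h.vL hf he)
    · exact hac hf

end Pool.Agent.X189.BS
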