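import Pool.Agent.X189.BS.E2

namespace Pool.Agent.X189.BS

variable {n : ℕ}

theorem B_ne {L : List (Fin (n + 1) × Fin (n + 1))} {e f : Fin (n + 1) × Fin (n + 1)}
    (h : B L e f) : e ≠ f := by
  rintro rfl
  exact absurd h.2 (lt_irrefl _)

theorem last_of {a : Fin (n + 1)} (A0 : List (Fin (n + 1) × Fin (n + 1)))
    (h : ∃ e ∈ A0, e.1 = a) :
    ∃ A b M1, A0 = A ++ (a, b) :: M1 ∧ ∀ f ∈ M1, f.1 ≠ a := by
  induction A0 with
  | nil => simp at h
  | cons x A0 ih =>
    by_cases h2 : ∃ e ∈ A0, e.1 = a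
    · obtain ⟨A, b, M1, rfl, h3⟩ := ih h2
      exact ⟨x :: A, b, M1, rfl, h3⟩
    · push Not at h2
      obtain ⟨e, he, hea⟩ := h
      rcases List.mem_cons.1 he with rfl | he
      · obtain ⟨e1, e2⟩ := e
        simp only at hea
        subst hea
        exact ⟨[], e2, A0, rfl, h2⟩
      · exact absurd hea (h2 e he)

theorem flip_exists {a c : Fin (n + 1)} {L M : List (Fin (n + 1) × Fin (n + 1))}
    (h : Agr a c L M) (hac : (a, c) ∈ L)
    (hex : ∃ b0, B L (a, b0) (a, c) ∧ ¬ B M (a, b0) (a, c)) :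
    ∃ b Q T, a < b ∧ b < c ∧ Sw L (Q ++ (a, b) :: (a, c) :: (b, c) :: T) ∧
      ¬ B M (a, b) (a, c) := by
  obtain ⟨b0, hb0, hb0M⟩ := hex
  have nL := (VF_nodup L [] h.vL).1
  have hacM := (h.mem _).1 hac
  obtain ⟨-, -, -, -, -, tL⟩ := val_B h.vL hac
  obtain ⟨-, -, -, -, -, tM⟩ := val_B h.vM hacM
  obtain ⟨A0, N, hL⟩ := List.append_of_mem hac
  have hb0A : (a, b0) ∈ A0 := by
    rw [hL] at nL hb0
    exact (B_iff nL).1 hb0
  obtain ⟨A, b, M1, hA0, hM1⟩ := last_of A0 ⟨_, hb0A, rfl⟩
  have hL2 : L = A ++ (a, b) :: (M1 ++ (a, c) :: N) := by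
    rw [hL, hA0]; simp
  have memA0 : ∀ e, B L e (a, c) ↔ e ∈ A0 := by
    intro e
    have := nL
    rw [hL] at this ⊢
    exact B_iff this
  have memA : ∀ e, B L e (a, b) ↔ e ∈ A := by
    intro e
    have := nL
    rw [hL2] at this ⊢
    exact B_iff this
  have habac : B L (a, b) (a, c) := (memA0 _).2 (by rw [hA0]; simp)
  have habL : (a, b) ∈ L := habac.1
  have habM : (a, b) ∈ M := (h.mem _).1 habL
  obtain ⟨-, hab, hbc', pab1, -, pab3⟩ := val_B h.vL habL
  have hbnc : b ≠ c := fun h3 => B_ne habac (by rw [h3])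
  have hbc : b < c := lt_of_le_of_ne hbc' hbnc
  have hbM : ¬ B M (a, b) (a, c) := by
    intro hbM
    rcases eq_or_ne b0 b with rfl | hne
    · exact hb0M hbM
    · have h3 : (a, b0) ∈ A := by
        rw [hA0] at hb0A
        simp only [List.mem_append, List.mem_cons, Prod.mk.injEq] at hb0A
        rcases hb0A with h4 | h4 | h4
        · exact h4
        · exact absurd h4.2 hne
        · exact (hM1 _ h4 rfl).elim
      have h4 := (memA _).2 h3
      have hb0c : b0 ≠ c := fun h3 => B_ne hb0 (by rw [h3])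
      have h5 := (h.o2 a (Or.inl rfl) (Or.inl rfl) hb0c hbnc).1 h4
      exact hb0M (B_trans h5 hbM)
  have hbcM : B M (b, c) (a, c) := by
    by_contra h3
    exact hbM ((tM b hab hbc).2 h3)
  have hbcL : (b, c) ∈ L := (h.mem _).2 hbcM.1
  have hnbc : ¬ B L (b, c) (a, c) := (tL b hab hbc).1 habac
  have hacbc : B L (a, c) (b, c) := by
    rcases B_total hac hbcL (by simp; exact fun h3 => absurd h3 hab.ne) with h3 | h3
    · exact h3
    · exact absurd h3 hnbc
  have hacabM : B M (a, c) (a, b) := by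
    rcases B_total hacM habM (by simp; exact fun h3 => hbnc h3.symm) with h3 | h3
    · exact h3
    · exact absurd h3 hbM
  have hbcN : (b, c) ∈ N := by
    have h3 : (b, c) ∈ A0 ++ (a, c) :: N := by rw [← hL]; exact hbcL
    simp only [List.mem_append, List.mem_cons, Prod.mk.injEq] at h3
    rcases h3 with h4 | h4 | h4
    · exact absurd ((memA0 _).2 h4) hnbc
    · exact absurd h4.1.symm hab.ne
    · exact h4
  obtain ⟨M2, T, hN⟩ := List.append_of_mem hbcN
  have hL3 : L = (A0 ++ (a, c) :: M2) ++ (b, c) :: T := by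
    rw [hL, hN]; simp
  have memM2 : ∀ e, B L e (b, c) ↔ e ∈ A0 ++ (a, c) :: M2 := by
    intro e
    have := nL
    rw [hL3] at this ⊢
    exact B_iff this
  -- no element touching b strictly between
  have NT : ∀ e : Fin (n + 1) × Fin (n + 1), (e.1 = b ∨ e.2 = b) → e ≠ (a, b) → e ≠ (b, c) →
      B L (a, b) e → B L e (b, c) → False := by
    intro e heb he1 he2 h3 h4
    obtain ⟨e1, e2⟩ := e
    have heL : (e1, e2) ∈ L := h4.1
    obtain ⟨ve1, ve2, ve3, -⟩ := val_B h.vL heL
    have hea : e1 ≠ a := by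
      rintro rfl
      rcases heb with h5 | h5
      · simp only at h5; exact absurd h5 hab.ne
      · simp only at h5; subst h5; exact he1 rfl
    have hec : e2 ≠ c := by
      rintro rfl
      rcases heb with h5 | h5
      · simp only at h5; subst h5; exact he2 rfl
      · simp only at h5; exact hbnc h5.symm
    have h5 : B M (a, b) (e1, e2) := (h.o2 b (Or.inr rfl) heb hbnc hec).1 h3
    have h6 : B M (e1, e2) (b, c) := (h.o1 b heb (Or.inl rfl) hea hab.ne').1 h4
    exact B_asymm (B_trans h5 h6) (B_trans hbcM hacabM)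
  have posL : ∀ e ∈ L, a ≤ e.1 ∧ e.1 < e.2 ∧ e.2 ≤ c := by
    intro e he
    obtain ⟨e1, e2⟩ := e
    obtain ⟨ve1, ve2, ve3, -⟩ := val_B h.vL he
    exact ⟨ve1, ve2, ve3⟩
  -- elements of M1
  have hD1 : ∀ f ∈ M1, Disj (a, b) f := by
    intro f hf
    have hfA0 : f ∈ A0 := by rw [hA0]; simp [hf]
    have hfL : f ∈ L := by rw [hL]; simp [hfA0]
    obtain ⟨p1, p2, p3⟩ := posL f hfL
    have h3 : B L f (a, c) := (memA0 _).2 hfA0
    have h4 : f ≠ (a, b) := by
      rintro rfl
      exact hM1 _ hf rfl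
    have h5 : B L (a, b) f := by
      rcases B_total habL hfL h4.symm with h6 | h6
      · exact h6
      · exfalso
        have h7 := (memA _).1 h6
        have h8 := nL
        rw [hL2] at h8
        rw [List.nodup_append] at h8
        exact h8.2.2 f h7 f (by simp [hf]) rfl
    have h6 : B L f (b, c) := B_trans h3 hacbc
    have h7 : f ≠ (b, c) := B_ne h6
    have h8 : ¬ (f.1 = b ∨ f.2 = b) := fun h9 => NT f h9 h4 h7 h5 h6
    simp only [not_or] at h8
    refine ⟨fun h9 => hM1 f hf h9.symm, ?_, fun h9 => h8.1 h9.symm, fun h9 => h8.2 h9.symm⟩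
    intro h9
    simp only at h9
    rw [← h9] at p2
    exact absurd (lt_of_le_of_lt p1 p2) (lt_irrefl _)
  have hD2 : ∀ f ∈ M2, Disj f (b, c) := by
    intro f hf
    have hfL : f ∈ L := by rw [hL3]; simp [hf]
    obtain ⟨p1, p2, p3⟩ := posL f hfL
    have h3 : B L f (b, c) := (memM2 _).2 (by simp [hf])
    have h4 : f ≠ (a, c) := by
      rintro rfl
      have h8 := nL
      rw [hL, hN] at h8
      rw [List.nodup_append] at h8
      have h9 := h8.2.1
      rw [List.nodup_cons] at h9
      exact h9.1 (by simp [hf])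
    have h5 : B L (a, c) f := by
      rcases B_total hac hfL h4.symm with h6 | h6
      · exact h6
      · exfalso
        have h7 := (memA0 _).1 h6
        have h8 := nL
        rw [hL, hN] at h8
        rw [List.nodup_append] at h8
        exact h8.2.2 f h7 f (by simp [hf]) rfl
    have h6 : B L (a, b) f := B_trans habac h5
    have h7 : ¬ (f.1 = b ∨ f.2 = b) :=
      fun h9 => NT f h9 (B_ne h6).symm (B_ne h3) h6 h3
    simp only [not_or] at h7
    refine ⟨h7.1, ?_, h7.2, ?_⟩
    · intro h9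
      simp only at h9
      rw [h9] at p2
      exact absurd (lt_of_lt_of_le p2 p3) (lt_irrefl _)
    · intro h9
      obtain ⟨z, f2⟩ := f
      simp only at h9 h7 p1 p2
      subst h9
      have hza : z ≠ a := fun h10 => h4 (by rw [h10])
      have haz : a < z := lt_of_le_of_ne p1 hza.symm
      have hzb : z ≠ b := h7.1
      have h10 : B M (z, f2) (b, f2) := (h.o1 f2 (Or.inr rfl) (Or.inr rfl) hza hab.ne').1 h3
      have h11 : B M (z, f2) (a, f2) := B_trans h10 hbcM
      have h13 : B L (a, z) (a, f2) := (tL z haz p2).2 (B_asymm h5)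
      have h14 : (a, z) ∈ A := by
        have h15 := (memA0 _).1 h13
        rw [hA0] at h15
        simp only [List.mem_append, List.mem_cons, Prod.mk.injEq] at h15
        rcases h15 with h16 | h16 | h16
        · exact h16
        · exact absurd h16.2 hzb
        · exact (hM1 _ h16 rfl).elim
      have h15 : B L (a, z) (a, b) := (memA _).2 h14
      rcases lt_or_gt_of_ne hzb with hlt | hlt
      · obtain ⟨-, -, -, -, -, t3⟩ := val_B h.vL hfL
        have h16 : B L (z, b) (z, f2) := (t3 b hlt hbc).2 (B_asymm h3)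
        have h17 : ¬ B L (z, b) (a, b) := (pab3 z haz hlt).1 h15
        have h18 : B L (a, b) (z, b) := by
          rcases B_total habL h16.1 (by simp; exact fun h => absurd h hza.symm) with h19 | h19
          · exact h19
          · exact absurd h19 h17
        exact NT (z, b) (Or.inr rfl) (by simp; exact fun h => absurd h hza)
          (by simp [hzb]) h18 (B_trans h16 h3)
      · obtain ⟨-, -, -, -, t2, -⟩ := val_B h.vL hfL
        obtain ⟨-, -, -, -, -, t3⟩ := val_B h.vL h15.1
        have h16 : B L (b, z) (a, z) := by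
          by_contra h17
          exact B_asymm h15 ((t3 b hab hlt).2 h17)
        have h17 : B L (b, z) (z, f2) := B_trans h16 (B_trans h13 h5)
        exact B_asymm h3 ((t2 b hab.le hlt).1 h17)
  refine ⟨b, A ++ M1, M2 ++ T, hab, hbc, ?_, hbM⟩
  have e1 : Sw ((a, b) :: (M1 ++ (a, c) :: N)) (M1 ++ (a, b) :: (a, c) :: N) :=
    sw_right M1 ((a, c) :: N) hD1
  have e2 : Sw N ((b, c) :: (M2 ++ T)) := by
    rw [hN]
    exact sw_left M2 T hD2
  have e3 : Sw (M1 ++ (a, b) :: (a, c) :: N) (M1 ++ (a, b) :: (a, c) :: (b, c) :: (M2 ++ T)) :=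
    sw_append_left M1 (sw_cons (sw_cons e2))
  have e4 := sw_append_left A (e1.trans e3)
  rw [← hL2] at e4
  simpa using e4

theorem flip_VF {a b c : Fin (n + 1)} (hab : a < b) (hbc : b < c)
    (Q T : List (Fin (n + 1) × Fin (n + 1)))
    (h : VF a c [] (Q ++ (a, b) :: (a, c) :: (b, c) :: T)) :
    VF a c [] (Q ++ (b, c) :: (a, c) :: (a, b) :: T) := by
  rw [VF_append] at h ⊢
  simp only [VF, List.nil_append] at h ⊢
  obtain ⟨hQ, o1, o2, o3, hT⟩ := h
  refine ⟨hQ, ?_, ?_, ?_, ?_⟩
  · obtain ⟨p1, p2, p3, p4, p5, p6, p7⟩ := o3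
    obtain ⟨r1, r2, r3, r4, r5, r6, r7⟩ := o2
    obtain ⟨s1, s2, s3, s4, s5, s6, s7⟩ := o1
    unfold OK
    simp only [List.append_assoc, List.cons_append, List.nil_append, List.mem_append,
      List.mem_cons, List.not_mem_nil, or_false, Prod.mk.injEq, not_or] at *
    refine ⟨p1, p2, p3, p4.1, ?_, ?_, ?_⟩
    · intro z h1 h2
      exact absurd (lt_of_lt_of_le h1 h2) (lt_irrefl _)
    · intro z h1 h2
      rcases eq_or_ne z a with rfl | hza
      · exact ⟨fun h => absurd h s4, fun h => absurd h r4.1⟩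
      · have := p6 z h1 h2
        simpa [hza] using this
    · intro z h1 h2
      have := p7 z h1 h2
      have hba : b ≠ a := hab.ne'
      have hza : z ≠ a := (hab.trans h1).ne'
      simpa [hba, hza] using this
  · obtain ⟨p1, p2, p3, p4, p5, p6, p7⟩ := o3
    obtain ⟨r1, r2, r3, r4, r5, r6, r7⟩ := o2
    obtain ⟨s1, s2, s3, s4, s5, s6, s7⟩ := o1
    unfold OK
    simp only [List.append_assoc, List.cons_append, List.nil_append, List.mem_append,
      List.mem_cons, List.not_mem_nil, or_false, Prod.mk.injEq, not_or] at *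
    refine ⟨r1, r2, r3, ⟨r4.1, fun h => absurd h.1 hab.ne⟩, ?_, ?_, ?_⟩
    · intro z h1 h2
      exact absurd (lt_of_lt_of_le h1 h2) (lt_irrefl _)
    · intro z h1 h2
      exact absurd (lt_of_le_of_lt h1 h2) (lt_irrefl _)
    · intro z h1 h2
      rcases eq_or_ne z b with rfl | hzb
      · have h3 : (a, z) ∉ Q := s4
        have : a ≠ z := hab.ne
        simp [h3, this]
      · have := r7 z h1 h2
        have hab' : a ≠ b := hab.ne
        have hza : z ≠ a := h1.ne'
        simpa [hzb, hab', hza] using this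
  · obtain ⟨p1, p2, p3, p4, p5, p6, p7⟩ := o3
    obtain ⟨r1, r2, r3, r4, r5, r6, r7⟩ := o2
    obtain ⟨s1, s2, s3, s4, s5, s6, s7⟩ := o1
    unfold OK
    simp only [List.append_assoc, List.cons_append, List.nil_append, List.mem_append,
      List.mem_cons, List.not_mem_nil, or_false, Prod.mk.injEq, not_or] at *
    refine ⟨s1, s2, s3, ⟨s4, fun h => absurd h.1 hab.ne, fun h => absurd h.2 hbc.ne⟩, ?_, ?_, ?_⟩
    · intro z h1 h2
      rcases eq_or_ne z c with rfl | hzc
      · simp
      · have := s5 z h1 h2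
        simpa [hzc] using this
    · intro z h1 h2
      exact absurd (lt_of_le_of_lt h1 h2) (lt_irrefl _)
    · intro z h1 h2
      have := s7 z h1 h2
      have hza : z ≠ a := h1.ne'
      have hab' : a ≠ b := hab.ne
      have hzc : z ≠ c := (h2.trans hbc).ne
      have hbc' : b ≠ c := hbc.ne
      simpa [hza, hab', hzc, hbc'] using this
  · refine (VF_congr T ?_).1 hT
    intro x
    simp only [List.mem_append, List.mem_cons, List.not_mem_nil, or_false]
    tauto

end Pool.Agent.X189.BS
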