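import Pool.Agent.X189.BS.Stm

namespace Pool.Agent.X189.BS

variable {n : ℕ}

/-- local validity of the crossing `e` after the crossings in `P` -/
def OK (a c : Fin (n + 1)) (P : List (Fin (n + 1) × Fin (n + 1))) (e : Fin (n + 1) × Fin (n + 1)) :
    Prop :=
  a ≤ e.1 ∧ e.1 < e.2 ∧ e.2 ≤ c ∧ e ∉ P ∧
    (∀ z, e.2 < z → z ≤ c → ((e.2, z) ∈ P ↔ (e.1, z) ∈ P)) ∧
    (∀ z, a ≤ z → z < e.1 → ((z, e.1) ∈ P ↔ (z, e.2) ∈ P)) ∧
    (∀ z, e.1 < z → z < e.2 → ((e.1, z) ∈ P ↔ (z, e.2) ∉ P))

def VF (a c : Fin (n + 1)) :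
    List (Fin (n + 1) × Fin (n + 1)) → List (Fin (n + 1) × Fin (n + 1)) → Prop
  | _, [] => True
  | P, e :: L => OK a c P e ∧ VF a c (P ++ [e]) L

theorem VF_iff (a c : Fin (n + 1)) (L P : List (Fin (n + 1) × Fin (n + 1))) :
    VF a c P L ↔ ∀ Q e S, L = Q ++ e :: S → OK a c (P ++ Q) e := by
  induction L generalizing P with
  | nil =>
    simp only [VF, true_iff]
    intro Q e S h
    simp at h
  | cons x L ih =>
    simp only [VF, ih]
    constructor
    · rintro ⟨h1, h2⟩ Q e S h
      cases Q with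
      | nil =>
        simp only [List.nil_append, List.cons.injEq] at h
        obtain ⟨rfl, rfl⟩ := h
        simpa using h1
      | cons y Q =>
        simp only [List.cons_append, List.cons.injEq] at h
        obtain ⟨rfl, rfl⟩ := h
        have := h2 Q e S rfl
        simpa using this
    · intro h
      refine ⟨by simpa using h [] x L rfl, fun Q e S hL => ?_⟩
      have := h (x :: Q) e S (by simp [hL])
      simpa using this

theorem val_iff (a c : Fin (n + 1)) (L : List (Fin (n + 1) × Fin (n + 1))) :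
    Val a c L ↔ VF a c [] L := by
  rw [VF_iff]
  rfl

theorem OK_congr {a c : Fin (n + 1)} {P Q : List (Fin (n + 1) × Fin (n + 1))}
    {e : Fin (n + 1) × Fin (n + 1)} (h : ∀ x, x ∈ P ↔ x ∈ Q) : OK a c P e ↔ OK a c Q e := by
  simp only [OK, h]

theorem VF_congr {a c : Fin (n + 1)} {P Q : List (Fin (n + 1) × Fin (n + 1))}
    (L : List (Fin (n + 1) × Fin (n + 1))) (h : ∀ x, x ∈ P ↔ x ∈ Q) :
    VF a c P L ↔ VF a c Q L := by
  induction L generalizing P Q with
  | nil => simp [VF]
  | cons e L ih =>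
    simp only [VF]
    rw [OK_congr h, ih (P := P ++ [e]) (Q := Q ++ [e]) (by intro x; simp [h])]

theorem VF_append {a c : Fin (n + 1)} (P L M : List (Fin (n + 1) × Fin (n + 1))) :
    VF a c P (L ++ M) ↔ VF a c P L ∧ VF a c (P ++ L) M := by
  induction L generalizing P with
  | nil => simp [VF]
  | cons e L ih =>
    simp only [VF, List.cons_append, ih]
    simp [and_assoc]

/-- disjoint pairs -/
def Disj (e f : Fin (n + 1) × Fin (n + 1)) : Prop :=
  e.1 ≠ f.1 ∧ e.1 ≠ f.2 ∧ e.2 ≠ f.1 ∧ e.2 ≠ f.2

theorem OK_swap {a c : Fin (n + 1)} {P : List (Fin (n + 1) × Fin (n + 1))}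
    {e f : Fin (n + 1) × Fin (n + 1)} (h : Disj e f) :
    OK a c (P ++ [e]) f ↔ OK a c P f := by
  obtain ⟨h1, h2, h3, h4⟩ := h
  obtain ⟨e1, e2⟩ := e
  obtain ⟨f1, f2⟩ := f
  simp only [ne_eq] at h1 h2 h3 h4
  have k1 : ∀ z, ((f2, z) : Fin (n + 1) × Fin (n + 1)) ≠ (e1, e2) := by
    intro z hz
    simp only [Prod.mk.injEq] at hz
    exact h2 hz.1.symm
  have k2 : ∀ z, ((f1, z) : Fin (n + 1) × Fin (n + 1)) ≠ (e1, e2) := by
    intro z hz
    simp only [Prod.mk.injEq] at hz
    exact h1 hz.1.symm
  have k3 : ∀ z, ((z, f1) : Fin (n + 1) × Fin (n + 1)) ≠ (e1, e2) := by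
    intro z hz
    simp only [Prod.mk.injEq] at hz
    exact h3 hz.2.symm
  have k4 : ∀ z, ((z, f2) : Fin (n + 1) × Fin (n + 1)) ≠ (e1, e2) := by
    intro z hz
    simp only [Prod.mk.injEq] at hz
    exact h4 hz.2.symm
  simp only [OK, List.mem_append, List.mem_singleton, k1, k2, k3, k4, or_false]

theorem Disj.symm {e f : Fin (n + 1) × Fin (n + 1)} (h : Disj e f) : Disj f e :=
  ⟨h.1.symm, h.2.2.1.symm, h.2.1.symm, h.2.2.2.symm⟩

theorem vstep_comm (q : ℤ) {e f : Fin (n + 1) × Fin (n + 1)} (h : Disj e f)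
    (X : Fin (n + 1) → ℤ) : vstep q (vstep q X e) f = vstep q (vstep q X f) e := by
  obtain ⟨h1, h2, h3, h4⟩ := h
  funext z
  simp only [vstep, h1, h2, h3, h4, h1.symm, h2.symm, h3.symm, h4.symm, or_self, if_false]
  by_cases hz : z = e.1 ∨ z = e.2
  · have : ¬ (z = f.1 ∨ z = f.2) := by
      rcases hz with rfl | rfl <;> simp [h1, h2, h3, h4]
    simp only [hz, this, if_true, if_false]
    ring
  · by_cases hf : z = f.1 ∨ z = f.2
    · simp only [hz, hf, if_true, if_false]
      ring
    · simp only [hz, hf, if_false]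

/-- one commutation -/
def Sw1 (L M : List (Fin (n + 1) × Fin (n + 1))) : Prop :=
  ∃ A B e f, Disj e f ∧ L = A ++ e :: f :: B ∧ M = A ++ f :: e :: B

def Sw : List (Fin (n + 1) × Fin (n + 1)) → List (Fin (n + 1) × Fin (n + 1)) → Prop :=
  Relation.ReflTransGen Sw1

structure Good (q : ℤ) (a c : Fin (n + 1)) (L M : List (Fin (n + 1) × Fin (n + 1))) : Prop where
  vf : VF a c [] L → VF a c [] M
  mem : ∀ e, e ∈ L ↔ e ∈ M
  loc : ∀ x, loc x L = loc x M
  val : ∀ X, L.foldl (vstep q) X = M.foldl (vstep q) X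

theorem good_sw1 (q : ℤ) (a c : Fin (n + 1)) {L M : List (Fin (n + 1) × Fin (n + 1))}
    (h : Sw1 L M) : Good q a c L M := by
  obtain ⟨A, B, e, f, hd, rfl, rfl⟩ := h
  refine ⟨?_, ?_, ?_, ?_⟩
  · intro hv
    rw [VF_append] at hv ⊢
    simp only [VF, List.nil_append] at hv ⊢
    obtain ⟨h1, h2, h3, h4⟩ := hv
    refine ⟨h1, (OK_swap hd).1 h3, (OK_swap hd.symm).2 h2, ?_⟩
    refine (VF_congr B ?_).1 h4
    intro x
    simp only [List.mem_append, List.mem_singleton]
    tauto
  · intro x
    simp only [List.mem_append, List.mem_cons]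
    tauto
  · intro x
    simp only [BS.loc, List.filter_append, List.filter_cons]
    by_cases he : (e.1 = x ∨ e.2 = x)
    · have hf : ¬ (f.1 = x ∨ f.2 = x) := by
        obtain ⟨h1, h2, h3, h4⟩ := hd
        rcases he with rfl | rfl
        · simp [h1.symm, h2.symm]
        · simp [h3.symm, h4.symm]
      simp [he, hf]
    · simp [he]
  · intro X
    simp only [List.foldl_append, List.foldl_cons]
    rw [vstep_comm q hd]

theorem Good.trans {q : ℤ} {a c : Fin (n + 1)} {L M N : List (Fin (n + 1) × Fin (n + 1))}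
    (h : Good q a c L M) (k : Good q a c M N) : Good q a c L N :=
  ⟨fun x => k.vf (h.vf x), fun e => (h.mem e).trans (k.mem e), fun x => (h.loc x).trans (k.loc x),
    fun X => (h.val X).trans (k.val X)⟩

theorem good_sw (q : ℤ) (a c : Fin (n + 1)) {L M : List (Fin (n + 1) × Fin (n + 1))}
    (h : Sw L M) : Good q a c L M := by
  induction h with
  | refl => exact ⟨fun x => x, fun _ => Iff.rfl, fun _ => rfl, fun _ => rfl⟩
  | tail _ h2 ih => exact ih.trans (good_sw1 q a c h2)

theorem sw_cons {e : Fin (n + 1) × Fin (n + 1)} {L M : List (Fin (n + 1) × Fin (n + 1))}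
    (h : Sw L M) : Sw (e :: L) (e :: M) := by
  induction h with
  | refl => exact Relation.ReflTransGen.refl
  | tail _ h2 ih =>
    refine ih.tail ?_
    obtain ⟨A, B, x, y, hd, rfl, rfl⟩ := h2
    exact ⟨e :: A, B, x, y, hd, rfl, rfl⟩

theorem sw_append_left (A : List (Fin (n + 1) × Fin (n + 1)))
    {L M : List (Fin (n + 1) × Fin (n + 1))} (h : Sw L M) : Sw (A ++ L) (A ++ M) := by
  induction A with
  | nil => exact h
  | cons x A ih => exact sw_cons ih

/-- move `e` to the right past `M` -/
theorem sw_right {e : Fin (n + 1) × Fin (n + 1)} (M T : List (Fin (n + 1) × Fin (n + 1)))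
    (h : ∀ f ∈ M, Disj e f) : Sw (e :: (M ++ T)) (M ++ e :: T) := by
  induction M with
  | nil => exact Relation.ReflTransGen.refl
  | cons f M ih =>
    have h1 : Sw (e :: (f :: M ++ T)) (f :: e :: (M ++ T)) :=
      Relation.ReflTransGen.single ⟨[], M ++ T, e, f, h f (by simp), rfl, rfl⟩
    exact h1.trans (sw_cons (ih (fun g hg => h g (by simp [hg]))))

/-- move `e` to the left past `M` -/
theorem sw_left {e : Fin (n + 1) × Fin (n + 1)} (M T : List (Fin (n + 1) × Fin (n + 1)))
    (h : ∀ f ∈ M, Disj f e) : Sw (M ++ e :: T) (e :: (M ++ T)) := by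
  induction M with
  | nil => exact Relation.ReflTransGen.refl
  | cons f M ih =>
    have h1 : Sw (f :: e :: (M ++ T)) (e :: (f :: M ++ T)) :=
      Relation.ReflTransGen.single ⟨[], M ++ T, f, e, h f (by simp), rfl, rfl⟩
    exact (sw_cons (ih (fun g hg => h g (by simp [hg])))).trans h1

/-- Lists without repetition, the same elements, the same order on every wire: connected by
commutations. -/
theorem sw_of_loc (L : List (Fin (n + 1) × Fin (n + 1))) :
    ∀ M : List (Fin (n + 1) × Fin (n + 1)), (∀ x, loc x L = loc x M) → L.Nodup → M.Nodup → Sw L M := by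
  induction L with
  | nil =>
    intro M h _ _
    cases M with
    | nil => exact Relation.ReflTransGen.refl
    | cons e M =>
      exfalso
      have := h e.1
      simp [BS.loc] at this
  | cons e L ih =>
    intro M h hL hM
    have heM : e ∈ M := by
      have h1 : e ∈ loc e.1 (e :: L) := by simp [BS.loc]
      rw [h e.1] at h1
      exact (List.mem_filter.1 h1).1
    obtain ⟨A, B, rfl⟩ := List.append_of_mem heM
    have hdis : ∀ f ∈ A, Disj f e := by
      intro f hf
      have key : ∀ x, (e.1 = x ∨ e.2 = x) → ¬ (f.1 = x ∨ f.2 = x) := by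
        intro x hx hfx
        have h1 := h x
        simp only [BS.loc, List.filter_append, List.filter_cons] at h1
        simp only [hx, decide_true, if_true] at h1
        have h2 : f ∈ List.filter (fun e => decide (e.1 = x ∨ e.2 = x)) A := by
          simp [hf, hfx]
        cases hA : List.filter (fun e => decide (e.1 = x ∨ e.2 = x)) A with
        | nil => rw [hA] at h2; simp at h2
        | cons g A' =>
          rw [hA] at h1
          simp only [List.cons_append, List.cons.injEq] at h1
          have h3 : g ∈ A := by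
            have : g ∈ List.filter (fun e => decide (e.1 = x ∨ e.2 = x)) A := by rw [hA]; simp
            exact (List.mem_filter.1 this).1
          rw [← h1.1] at h3
          rw [List.nodup_append] at hM
          exact hM.2.2 e h3 e (by simp) rfl
      have k1 := key e.1 (Or.inl rfl)
      have k2 := key e.2 (Or.inr rfl)
      simp only [not_or] at k1 k2
      exact ⟨k1.1, k2.1, k1.2, k2.2⟩
    have hs : Sw (A ++ e :: B) (e :: (A ++ B)) := sw_left A B hdis
    have hloc : ∀ x, loc x L = loc x (A ++ B) := by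
      intro x
      have h1 := (h x).trans ((good_sw 0 e.1 e.1 hs).loc x)
      simp only [BS.loc, List.filter_cons] at h1
      by_cases hx : (e.1 = x ∨ e.2 = x)
      · simp only [hx, decide_true, if_true, List.cons.injEq, true_and] at h1
        exact h1
      · simp only [hx, decide_false] at h1
        exact h1
    have hnd : (A ++ B).Nodup := by
      have := hM
      rw [List.nodup_middle] at this
      exact (List.nodup_cons.1 this).2
    have h3 := ih (A ++ B) hloc (List.nodup_cons.1 hL).2 hnd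
    have hs' : Sw (e :: (A ++ B)) (A ++ e :: B) := sw_right A B (fun f hf => (hdis f hf).symm)
    exact (sw_cons h3).trans hs'

theorem VF_nodup {a c : Fin (n + 1)} (L P : List (Fin (n + 1) × Fin (n + 1)))
    (h : VF a c P L) : L.Nodup ∧ ∀ e ∈ L, e ∉ P := by
  induction L generalizing P with
  | nil => simp
  | cons e L ih =>
    obtain ⟨h1, h2⟩ := h
    obtain ⟨h3, h4⟩ := ih _ h2
    refine ⟨List.nodup_cons.2 ⟨fun he => ?_, h3⟩, ?_⟩
    · exact h4 e he (by simp)
    · intro f hf
      rcases List.mem_cons.1 hf with rfl | hf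
      · exact h1.2.2.2.1
      · intro hfP
        exact h4 f hf (by simp [hfP])

end Pool.Agent.X189.BS
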